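import Pool.Agent.Zk1.DH.Main
import Pool.Agent.Zk1.DH.Mult

set_option autoImplicit false

/-!
# MP_5a4862_nt: the density hypothesis for the derivatives of the Riemann xi function, with the optimal constant 4

The Riemann hypothesis says that all zeros of `ξ` are on the critical line; it implies the same for all derivatives `ξ^(n)`.
We prove, unconditionally and uniformly in `n ≥ 0` and `T`: for every `κ < 4` all but a proportion `C e^(-κ n)` of the zeros of
`ξ^(n)` with ordinate in `(0, T]` are simple and lie on the critical line, and the number of the exceptional ones is at most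
`C e^(-κ n) T log T` (`T ≥ 2`). The constant `4` is the natural limit of the method and of the problem: the same bound with a
constant larger than `4` implies that zeta has a zero-free half-plane `Re s > θ`, `θ < 1`.
In particular zeta has at most `C e^(-κ m) T log T` zeros of multiplicity at least `m` up to height `T`, for every `κ < 4`.

With `δ = 2 n / log T` the bound is `T^(1 - 2δ + o(δ)) log T`, the exponent of the density hypothesis, in a range where for zeta itself
only the exponent of Ingham, `T^(1 - 4δ/3)`, is available.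

Idea. Put `L = log T`, `r = 2 n / L`. By Cauchy's formula `ξ^(n)` at height `t` is governed by `ξ` around the saddle point at
distance `r` from the line. There `ζ = P (1 + ∑_{2 ≤ k < K} D_k) + E`: `P` is the Euler product over the primes `p ≤ T^(1/K)`, `D_k` the
Dirichlet polynomial over the integers in `(T^(1/(k+1)), T^(1/k)]` without prime factors `≤ T^(1/K)`, and `E` is small far to the right
(Phragmen-Lindelof in exponential cones without zeros). The `n`-th derivative damps the frequency `T^a` by the factor `(1 - 2a)^n`,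
because the path of integration can be moved to the saddle point of the term, while the `2k`-th moment of `D_k` shows that `D_k` exceeds
`(1 - 2a)^(-n)`, `a = 1/(k+1)`, only on a set of measure `T (1 - 2a)^(2kn) ≤ T e^(-4n)`. Outside of a set of heights of measure
`T e^(-κ n)` the two halves of Cauchy's integral are therefore asymptotically monotone, and all zeros are on the line and simple.
-/

namespace Pool.Agent.Results.MP_5a4862_nt.DerivativesDensityHypothesis

open Complex

noncomputable section

/-- The Riemann xi function `s (s - 1) π^(-s/2) Γ(s/2) ζ(s) / 2`, as an entire function. -/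
def xi (s : ℂ) : ℂ := (s * (s - 1) * completedRiemannZeta₀ s + 1) / 2

/-- The zeros of `ξ^(n)` with ordinate in `(0, T]`. -/
def zer (n : ℕ) (T : ℝ) : Set ℂ := {s : ℂ | iteratedDeriv n xi s = 0 ∧ 0 < s.im ∧ s.im ≤ T}

/-- The exceptional ones: off the critical line or multiple. -/
def exc (n : ℕ) (T : ℝ) : Set ℂ :=
  {s : ℂ | s ∈ zer n T ∧ (s.re ≠ 1 / 2 ∨ iteratedDeriv (n + 1) xi s = 0)}

/-- The number of points of `A`, each counted with its multiplicity as a zero of `ξ^(n)`. -/
def num (n : ℕ) (A : Set ℂ) : ℕ := ∑ᶠ s ∈ A, analyticOrderNatAt (iteratedDeriv n xi) s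

/-- The zeros of `ξ` (the nontrivial zeros of zeta) of multiplicity at least `m` with ordinate in `(0, T]`. -/
def multiple (m : ℕ) (T : ℝ) : Set ℂ := {s : ℂ | 0 < s.im ∧ s.im ≤ T ∧ ∀ j < m, iteratedDeriv j xi s = 0}

/-- The bound with the constant `κ`: for all `n` and `T ≥ 2` the number of exceptional zeros of `ξ^(n)` up to height `T` is at most
`C e^(-κ n) T log T`. -/
def Bound (κ : ℝ) : Prop := ∃ C : ℝ, 0 < C ∧ ∀ (n : ℕ) (T : ℝ), 2 ≤ T →
  (num n (exc n T) : ℝ) ≤ C * Real.exp (-(κ * n)) * T * Real.log T

/-- The density hypothesis for the derivatives of the Riemann xi function, a corollary on the multiple zeros of zeta, and the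
optimality of the constant `4`. -/
theorem result :
    (∀ (n : ℕ) (T : ℝ), (zer n T).Finite) ∧
    (∀ κ : ℝ, κ < 4 → Bound κ ∧ ∃ C : ℝ, 0 < C ∧ ∀ (n : ℕ) (T : ℝ),
      (num n (exc n T) : ℝ) ≤ C * Real.exp (-(κ * n)) * num n (zer n T)) ∧
    (∀ κ : ℝ, κ < 4 → ∃ C : ℝ, 0 < C ∧ ∀ (m : ℕ) (T : ℝ), 2 ≤ m → 2 ≤ T →
      ((multiple m T).ncard : ℝ) ≤ C * Real.exp (-(κ * m)) * T * Real.log T) ∧
    ((∃ κ : ℝ, 4 < κ ∧ Bound κ) → ∃ θ : ℝ, θ < 1 ∧ ∀ s : ℂ, θ < s.re → riemannZeta s ≠ 0) :=
  ⟨Pool.Agent.Zk1.DH.Fin.zer_finite,
    fun κ hκ => ⟨Pool.Agent.Zk1.DH.Fin.bound_all κ hκ, Pool.Agent.Zk1.DH.Fin.prop_all κ hκ⟩,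
    fun κ hκ => Pool.Agent.Zk1.DH.Fin.mult_all κ hκ,
    Pool.Agent.Zk1.DH.Fin.conv_all⟩

end

end Pool.Agent.Results.MP_5a4862_nt.DerivativesDensityHypothesis
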