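import Pool.Agent.Zk5.HR.Lagu
import Pool.Agent.Zk5.Msq
import Pool.Agent.Zk5.HR.Dec
import Pool.Agent.Zk5.HR3.Dist
import Pool.Agent.Zk5.HR3.Unif
import Pool.Agent.Zk5.HR4.NearLin
import Pool.Agent.Zk69.H5.Exp

/-!
# Zero-free half-planes of `ζ` and the horizontal monotonicity of `|ζ|` and `|ξ|` at almost all heights

For every `θ ≥ 1/2` the half-plane `Re s > θ` is free of zeros of `ζ` if and only if for almost every `t ≥ 8` the
modulus `|ζ(σ + it)|` is strictly decreasing for `σ ≤ 1 - θ`, and if and only if for almost every `t` the modulus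
`|ξ(σ + it)|` is strictly increasing for `σ ≥ θ`; so Q1 holds if and only if this happens for some `θ < 1`. The
theorem measures how often it fails.

The Riemann hypothesis holds if and only if for every `t ≥ 8` the modulus `|ζ(σ + it)|` is strictly decreasing
for `σ ≤ 1/2`, and if and only if for every `t` the modulus `|ξ(σ + it)|` is strictly increasing for `σ ≥ 1/2`
(Spira 1966; Sondow and Dumitrescu 2010; Matiyasevich, Saidak and Zvengrowski 2014), and if and only if the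
Laguerre inequalities `L_n(t) ≥ 0` hold for all `n` and all `t` (Patrick; Csordas and Varga). Call a height
`t` bad if the corresponding property fails at this height, and bad for `θ ≥ 1/2` if the monotonicity fails on
the half-line `σ ≤ 1 - θ` or `σ ≥ θ`. We relate the bad heights to the zeros to the right of the critical line.

* Unconditionally the bad heights have upper density at most `0.056` (for `ζ`) and `0.1151` (for `ξ` and for all
  the Laguerre inequalities together), and the heights up to `T` that are bad for `θ` have measure at most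
  `C T^(1 - c (θ - 1/2))`, uniformly in `θ ∈ [1/2, 1]`, for every `c < 4/3`.
* Each zero `β + iγ` with `β > θ` and `γ` large makes all heights `t` with `|t - γ| ≤ 10^(-8) (β - θ) / (log γ)^2` bad
  for `θ`, for `ζ` and for `ξ`; and `t ≥ 8` is not bad for `θ` if no zero satisfies `β > θ` and `|t - γ| < β - 1/2`.
* The measure of the bad heights and the sum `D(T)` of the distances `β - 1/2` of the zeros to the right of the
  line agree up to three logarithms of the density: the measure up to `T` is at most `2 D(T + 1) + 2`, for all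
  three properties, and `D(T) ≤ C + C B log(4T/B)^3`, where `B` is the measure of the bad heights for `ζ` up to `2T`.
  For every `θ ≥ 1/2`, uniformly, the measure of the heights up to `T` that are bad for `θ` is at most the number of
  the zeros with `β > θ` up to `T + 1`, plus `10`, and the sum of the distances `β - θ` of these zeros up to `T` is at
  most `C + C (log T)^3` times this measure up to `T + 1`.
* So every density estimate `N(θ, T) = O(T^(a(θ) + ε))` with a continuous exponent, the density hypothesis for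
  instance, is equivalent to the same estimate for the bad heights; and the bad heights have density zero if and
  only if all but `o(T log T)` of the zeros up to height `T` lie within `ε / log T` of the critical line, for every
  `ε > 0`.

Idea of the proof of the local theorem. Let `w` be the point with the abscissa of the zero `ρ` and the height `t`,
near `ρ`, and suppose that the modulus of `f = ξ` increases to the left of `w` up to `w`. By a Chebyshev type bound
for polynomials on a segment, `f` is bounded near `w` by `γ^C |f(w)|`. The function `q ↦ f(w - d q²) / f(w)`, where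
`d` is the distance from `θ`, is even, bounded by `1` on the real diameter of the unit disc, and `1` at `0`, where its
derivative vanishes; it vanishes at a point `q₀` with `d q₀² = i (t - γ)`. Comparing it with a Blaschke factor in
the upper half-disc gives `Im q₀ ≤ C log γ |q₀|²`, so that `|t - γ|` is at least `c d / (log γ)^2`. For `ζ` the gamma
factor is harmless. For the near linear bound the same lemma is used at the scale `n / log T`: by the exponential moments of Selberg's density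
method, all but a proportion `e^(-cn)` of the zeros up to `T` lie in windows of size `n / log T` in which `ξ`,
rescaled, has at most `C n` zeros and is controlled from both sides; there the bad interval has length at least
`c (β - 1/2) / n^2`.
-/

set_option autoImplicit false

open MeasureTheory Set Complex Filter Asymptotics

namespace Pool.Agent.Results.MP_5a4862_nt.HorizontalMonotonicity

/-- Riemann's `ξ(s) = s (s - 1) π^(-s/2) Γ(s/2) ζ(s) / 2`, an entire function: `completedRiemannZeta₀ s` is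
`π^(-s/2) Γ(s/2) ζ(s) + 1/s + 1/(1 - s)`. -/
noncomputable def xi (s : ℂ) : ℂ := s * (s - 1) / 2 * completedRiemannZeta₀ s + 1 / 2

/-- `σ ↦ |ξ(σ + it)|` is strictly increasing on `[θ, ∞)` -/
def Increasing (θ t : ℝ) : Prop := StrictMonoOn (fun σ : ℝ => ‖xi (σ + t * I)‖) (Ici θ)

/-- `σ ↦ |ζ(σ + it)|` is strictly decreasing on `(-∞, 1 - θ]` -/
def Decreasing (θ t : ℝ) : Prop := StrictAntiOn (fun σ : ℝ => ‖riemannZeta (σ + t * I)‖) (Iic (1 - θ))

/-- `Ξ(x) = ξ(1/2 + ix)` for real `x` (where it is real) -/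
noncomputable def Xi (x : ℝ) : ℝ := (xi (1 / 2 + I * x)).re

/-- the Laguerre expressions `L_n(x) = ∑_{j ≤ 2n} (-1)^(n+j) C(2n, j) / (2n)! Ξ^(j)(x) Ξ^(2n-j)(x)`; one has
`|Ξ(x + iy)|² = ∑ L_n(x) y^(2n)` -/
noncomputable def L (n : ℕ) (x : ℝ) : ℝ :=
  ∑ j ∈ Finset.range (2 * n + 1), (-1) ^ (n + j) * ((2 * n).choose j : ℝ) / ((2 * n).factorial : ℝ) *
    iteratedDeriv j Xi x * iteratedDeriv (2 * n - j) Xi x

/-- all the Laguerre inequalities hold, strictly, at `t` -/
def Laguerre (t : ℝ) : Prop := ∀ n : ℕ, 0 < L n t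

/-- the measure of the heights in `[0, T]` at which some Laguerre inequality fails -/
noncomputable def badLag (T : ℝ) : ℝ := (volume ({t : ℝ | ¬ Laguerre t} ∩ Icc 0 T)).toReal

/-- the measure of the heights in `[0, T]` at which `|ξ|` is not strictly increasing on `[θ, ∞)` -/
noncomputable def badXi (θ T : ℝ) : ℝ := (volume ({t : ℝ | ¬ Increasing θ t} ∩ Icc 0 T)).toReal

/-- the measure of the heights in `[0, T]` at which `|ζ|` is not strictly decreasing on `(-∞, 1 - θ]` -/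
noncomputable def badZeta (θ T : ℝ) : ℝ := (volume ({t : ℝ | ¬ Decreasing θ t} ∩ Icc 0 T)).toReal

/-- `N(θ, T)`, the number of zeros `ρ` of `ζ` with `Re ρ > θ` and `0 < Im ρ ≤ T`, with multiplicity -/
noncomputable def zeroCount (θ T : ℝ) : ℝ :=
  ∑ᶠ ρ ∈ {ρ : ℂ | riemannZeta ρ = 0 ∧ θ < ρ.re ∧ 0 < ρ.im ∧ ρ.im ≤ T}, (analyticOrderNatAt riemannZeta ρ : ℝ)

/-- `D(θ, T) = Σ (β - θ)` over the zeros `β + iγ` of `ζ` with `β > θ` and `0 < γ ≤ T`, with multiplicity -/
noncomputable def distSum (θ T : ℝ) : ℝ :=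
  ∑ᶠ ρ ∈ {ρ : ℂ | riemannZeta ρ = 0 ∧ θ < ρ.re ∧ 0 < ρ.im ∧ ρ.im ≤ T},
    (analyticOrderNatAt riemannZeta ρ : ℝ) * (ρ.re - θ)

/-- `f` has exponent at most `a`: `f(T) = O(T^(a + ε))` for every `ε > 0` -/
def Exponent (f : ℝ → ℝ) (a : ℝ) : Prop := ∀ ε : ℝ, 0 < ε → f =O[atTop] fun T : ℝ => T ^ (a + ε)

theorem count_eq {θ T : ℝ} (hθ : 1 / 2 ≤ θ) : zeroCount θ T = Pool.Agent.Zk69.H5.NR θ T :=
  Pool.Agent.Zk69.H5.NR_eq hθ

theorem dist_eq {θ T : ℝ} (hθ : 1 / 2 ≤ θ) : distSum θ T = Pool.Agent.Zk5.HR3.DS θ T := by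
  classical
  unfold distSum Pool.Agent.Zk5.HR3.DS
  have h1 : ∑ s ∈ H370.Zf riemannZeta 1 T, (H370.mult riemannZeta s : ℝ) * max (s.re - θ) 0 =
      ∑ s ∈ (H370.Zf riemannZeta 1 T).filter (fun s => θ < s.re), (H370.mult riemannZeta s : ℝ) * (s.re - θ) := by
    rw [Finset.sum_filter]
    refine Finset.sum_congr rfl fun s _ => ?_
    split_ifs with h
    · rw [max_eq_left (by linarith)]
    · rw [max_eq_right (by linarith), mul_zero]
  rw [h1, ← finsum_mem_coe_finset]
  have e : {ρ : ℂ | riemannZeta ρ = 0 ∧ θ < ρ.re ∧ 0 < ρ.im ∧ ρ.im ≤ T} =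
      (((H370.Zf riemannZeta 1 T).filter (fun s => θ < s.re) : Finset ℂ) : Set ℂ) := by
    ext ρ
    rw [Finset.coe_filter]
    simp only [mem_setOf_eq]
    rw [H370.mem_Zf H370.good_zeta le_rfl]
    constructor
    · rintro ⟨h1, h2, h3, h4⟩
      obtain ⟨h5, h6⟩ := Pool.Agent.Zk69.H5.zero_right h1 (by linarith) h3
      exact ⟨⟨by linarith, h5, by linarith, h4, h1⟩, h2⟩
    · rintro ⟨⟨h1, h2, h3, h4, h5⟩, h6⟩
      exact ⟨h5, h6, by linarith, h4⟩
  rw [e]
  rfl

theorem dist_half (T : ℝ) : distSum (1 / 2) T = Pool.Agent.Zk4.DD 1 T := by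
  rw [dist_eq le_rfl]
  rfl

theorem dec_half (t : ℝ) : Decreasing (1 / 2) t ↔ Pool.Agent.Zk4.Anti t := by
  unfold Decreasing Pool.Agent.Zk4.Anti
  norm_num

theorem badZ_eq (T : ℝ) : badZeta (1 / 2) T = Pool.Agent.Zk5.HR.vol Pool.Agent.Zk4.BadZ T := by
  unfold badZeta Pool.Agent.Zk5.HR.vol Pool.Agent.Zk4.BadZ
  simp only [dec_half]

theorem badL_eq (T : ℝ) : badLag T = Pool.Agent.Zk5.HR.vol Pool.Agent.Zk4.Bad T := rfl

theorem badX_eq (T : ℝ) : badXi (1 / 2) T = Pool.Agent.Zk5.HR.vol Pool.Agent.Zk69.Hx.BadX T := rfl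

/-- the two conventions for the number of the zeros at distance `ε / log T`, for all `ε` -/
theorem near_iff : (∀ ε : ℝ, 0 < ε → (fun T : ℝ => zeroCount (1 / 2 + ε / Real.log T) T) =o[atTop] fun T => T * Real.log T) ↔
    ∀ ε : ℝ, 0 < ε → (fun T : ℝ => Pool.Agent.Zk5.HR.NF (ε / Real.log T) T) =o[atTop] fun T : ℝ => T * Real.log T := by
  constructor
  · intro h ε hε
    refine IsBigO.trans_isLittleO (IsBigO.of_bound 1 ?_) (h (ε / 2) (by positivity))
    filter_upwards [eventually_gt_atTop (1 : ℝ)] with T hT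
    have hl : 0 < Real.log T := Real.log_pos hT
    have h0 : 0 ≤ ε / 2 / Real.log T := by positivity
    rw [count_eq (by linarith), one_mul, Real.norm_eq_abs, Real.norm_eq_abs, abs_of_nonneg (Pool.Agent.Zk5.HR.NF_nonneg _ _),
      abs_of_nonneg (Pool.Agent.Zk69.H5.NR_nonneg _ _)]
    unfold Pool.Agent.Zk5.HR.NF Pool.Agent.Zk69.H5.NR
    classical
    refine Finset.sum_le_sum_of_subset_of_nonneg (fun s hs => ?_) fun _ _ _ => Nat.cast_nonneg _
    rw [Finset.mem_filter] at hs ⊢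
    refine ⟨hs.1, lt_of_lt_of_le ?_ hs.2⟩
    have : ε / 2 / Real.log T < ε / Real.log T := div_lt_div_of_pos_right (by linarith) hl
    linarith
  · intro h ε hε
    refine IsBigO.trans_isLittleO (IsBigO.of_bound 1 ?_) (h ε hε)
    filter_upwards [eventually_gt_atTop (1 : ℝ)] with T hT
    have hl : 0 < Real.log T := Real.log_pos hT
    have h0 : 0 ≤ ε / Real.log T := by positivity
    rw [count_eq (by linarith), one_mul, Real.norm_eq_abs, Real.norm_eq_abs, abs_of_nonneg (Pool.Agent.Zk5.HR.NF_nonneg _ _),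
      abs_of_nonneg (Pool.Agent.Zk69.H5.NR_nonneg _ _)]
    exact Pool.Agent.Zk69.H5.NR_le_NF

theorem result :
    -- (1) the criteria, at every abscissa `θ ≥ 1/2`, for `θ = 1/2` also with the Laguerre inequalities; and the
    -- unconditional bounds for the measure of the bad heights
    (∀ θ : ℝ, 1 / 2 ≤ θ → List.TFAE [
      ∀ s : ℂ, θ < s.re → riemannZeta s ≠ 0,
      ∀ t : ℝ, Increasing θ t,
      ∀ᵐ t : ℝ, Increasing θ t,
      ∀ t : ℝ, 8 ≤ t → Decreasing θ t,
      ∀ᵐ t : ℝ, 8 ≤ t → Decreasing θ t]) ∧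
    ((∀ s : ℂ, 1 / 2 < s.re → riemannZeta s ≠ 0) ↔ ∀ᵐ t : ℝ, Laguerre t) ∧
    (∀ᶠ T : ℝ in atTop, badZeta (1 / 2) T ≤ 0.056 * T ∧ badXi (1 / 2) T ≤ 0.1151 * T ∧ badLag T ≤ 0.1151 * T) ∧
    (∀ c : ℝ, c < 4 / 3 → ∃ C : ℝ, 0 < C ∧ ∀ θ T : ℝ, 1 / 2 ≤ θ → θ ≤ 1 → 2 ≤ T →
      badZeta θ T ≤ C * T ^ (1 - c * (θ - 1 / 2)) ∧ badXi θ T ≤ C * T ^ (1 - c * (θ - 1 / 2))) ∧
    -- (2) the heights that a zero makes bad, and the converse
    (∃ T₀ : ℝ, ∀ (θ t : ℝ) (ρ : ℂ), 1 / 2 ≤ θ → riemannZeta ρ = 0 → θ < ρ.re → T₀ ≤ ρ.im →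
      |t - ρ.im| ≤ (ρ.re - θ) / (10 ^ 8 * Real.log ρ.im ^ 2) → ¬ Increasing θ t ∧ ¬ Decreasing θ t) ∧
    (∀ θ t : ℝ, 1 / 2 ≤ θ → 8 ≤ t → (∀ ρ : ℂ, riemannZeta ρ = 0 → θ < ρ.re → ρ.re - 1 / 2 ≤ |t - ρ.im|) →
      Increasing θ t ∧ Decreasing θ t) ∧
    (∀ t : ℝ, ¬ Increasing (1 / 2) t → ¬ Laguerre t) ∧
    -- (3) the measure of the bad heights and the distances of the zeros: two-sided bounds
    (∃ C : ℝ, 0 < C ∧ ∀ T : ℝ, 2 ≤ T →
      badXi (1 / 2) T ≤ badLag T ∧ badLag T ≤ 2 * distSum (1 / 2) (T + 1) + 2 ∧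
      distSum (1 / 2) T ≤ C + C * badZeta (1 / 2) (2 * T) * Real.log (4 * T / badZeta (1 / 2) (2 * T)) ^ 3) ∧
    (∃ C : ℝ, 0 < C ∧ ∀ θ T : ℝ, 1 / 2 ≤ θ → 2 ≤ T →
      badZeta θ T ≤ badXi θ T + 8 ∧ badXi θ T ≤ zeroCount θ (T + 1) + 2 ∧
      distSum θ T ≤ C + C * Real.log T ^ 3 * badZeta θ (T + 1)) ∧
    -- consequences of (3): every zero density estimate is an estimate for the bad heights; and the equivalences for the
    -- densities
    (∀ a : ℝ → ℝ, ContinuousOn a (Ioo (1 / 2) 1) → (∀ θ ∈ Ioo (1 / 2 : ℝ) 1, 0 ≤ a θ) → List.TFAE [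
      ∀ θ ∈ Ioo (1 / 2 : ℝ) 1, Exponent (zeroCount θ) (a θ),
      ∀ θ ∈ Ioo (1 / 2 : ℝ) 1, Exponent (badXi θ) (a θ),
      ∀ θ ∈ Ioo (1 / 2 : ℝ) 1, Exponent (badZeta θ) (a θ)]) ∧
    List.TFAE [
      badZeta (1 / 2) =o[atTop] fun T => T,
      badXi (1 / 2) =o[atTop] fun T => T,
      badLag =o[atTop] fun T => T,
      ∀ ε : ℝ, 0 < ε → (fun T => zeroCount (1 / 2 + ε / Real.log T) T) =o[atTop] fun T => T * Real.log T,
      distSum (1 / 2) =o[atTop] fun T => T] := by
  have hms : Pool.Agent.Zk4.MSQ := fun a th eps h1 h2 h3 h4 => Pool.Agent.Zk5.msq a th eps h1 h2 h3 h4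
  have hd : Pool.Agent.Zk69.H5.Dist := Pool.Agent.Zk5.HR3.dist_le
  refine ⟨?_, ⟨fun h => Pool.Agent.Zk5.HR.lag_of_free h, fun h => Pool.Agent.Zk5.HR.free_of_lag h⟩, ?_, ?_, ?_, ?_,
    fun t ht hl => Pool.Agent.Zk69.Hx.badx_sub ht hl, ?_, ?_, ?_, ?_⟩
  · intro θ hθ
    tfae_have 1 → 2 := fun h t => Pool.Agent.Zk69.Hx.incF_of_free hθ h t
    tfae_have 2 → 3 := fun h => Eventually.of_forall h
    tfae_have 3 → 1 := fun h => Pool.Agent.Zk69.Hx.free_of_incF hθ (ae_iff.1 h)
    tfae_have 2 → 4 := fun h t ht => Pool.Agent.Zk69.Hx.decF_of_incF hθ ht (h t)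
    tfae_have 4 → 5 := fun h => Eventually.of_forall h
    tfae_have 5 → 1 := fun h => by
      refine Pool.Agent.Zk5.HR.free_of_decF hθ ?_
      have h1 := ae_iff.1 h
      refine measure_mono_null ?_ h1
      rintro t ⟨h2, h3⟩
      exact fun h4 => h3 (h4 h2)
    tfae_finish
  · obtain ⟨T1, h1⟩ := Pool.Agent.Zk4.badz_total hms
    obtain ⟨T2, h2⟩ := Pool.Agent.Zk4.bad_total hms
    filter_upwards [eventually_ge_atTop T1, eventually_ge_atTop T2, eventually_ge_atTop 0] with T g1 g2 g3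
    have h3 : badLag T ≤ 0.1151 * T := by
      rw [badL_eq]
      have := ENNReal.toReal_mono ENNReal.ofReal_ne_top (h2 T g2)
      rwa [ENNReal.toReal_ofReal (by positivity)] at this
    refine ⟨?_, ?_, h3⟩
    · rw [badZ_eq]
      have := ENNReal.toReal_mono ENNReal.ofReal_ne_top (h1 T g1)
      rwa [ENNReal.toReal_ofReal (by positivity)] at this
    · rw [badX_eq]
      exact (Pool.Agent.Zk5.HR.volx_lag T).trans h3
  · intro c hc
    obtain ⟨C, hC, h⟩ := Pool.Agent.Zk5.HR3.unif hc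
    refine ⟨C, hC, fun θ T h1 h2 h3 => ⟨?_, ?_⟩⟩
    · refine le_trans ?_ (h θ T h1 h2 h3)
      refine ENNReal.toReal_mono (Pool.Agent.Zk5.HR.vol_fin _ T) (measure_mono ?_)
      rintro t ⟨h4, h5⟩
      exact ⟨fun h6 => h4 h6.2, h5⟩
    · refine le_trans ?_ (h θ T h1 h2 h3)
      refine ENNReal.toReal_mono (Pool.Agent.Zk5.HR.vol_fin _ T) (measure_mono ?_)
      rintro t ⟨h4, h5⟩
      exact ⟨fun h6 => h4 h6.1, h5⟩
  · obtain ⟨T0, -, h⟩ := Pool.Agent.Zk5.HR4.local_zero2
    exact ⟨T0, h⟩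
  · intro θ t h1 h2 h3
    exact ⟨Pool.Agent.Zk69.H5.inc_local h1 h3, Pool.Agent.Zk69.H5.dec_local h1 h2 h3⟩
  · obtain ⟨C, hC, h⟩ := Pool.Agent.Zk5.HR4.near_lin
    refine ⟨C, hC, fun T hT => ?_⟩
    rw [badZ_eq, badX_eq, badL_eq, dist_half, dist_half]
    refine ⟨Pool.Agent.Zk5.HR.volx_lag T, ?_, h T hT⟩
    have := Pool.Agent.Zk5.HR.voll_le (T := T) (by linarith)
    linarith
  · obtain ⟨C, hC, h⟩ := Pool.Agent.Zk5.HR4.dist_le2
    refine ⟨C, hC, fun θ T h1 h2 => ⟨Pool.Agent.Zk69.H5.volzx_le h1 T, ?_, ?_⟩⟩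
    · rw [count_eq h1]
      exact Pool.Agent.Zk69.H5.badx_le h1
    · rw [dist_eq h1]
      exact h θ T h1 h2
  · intro a h1 h2
    have h3 := Pool.Agent.Zk69.H5.tfae_exp hd h1 h2
    have h4 : (∀ θ ∈ Ioo (1 / 2 : ℝ) 1, Exponent (zeroCount θ) (a θ)) ↔
        ∀ θ ∈ Ioo (1 / 2 : ℝ) 1, ∀ ε : ℝ, 0 < ε → (fun T => Pool.Agent.Zk69.H5.NR θ T) =O[atTop] fun T : ℝ => T ^ (a θ + ε) := by
      refine forall_congr' fun θ => forall_congr' fun hθ => ?_
      have e : zeroCount θ = fun T => Pool.Agent.Zk69.H5.NR θ T := funext fun T => count_eq hθ.1.le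
      rw [e]
      rfl
    rw [h4]
    exact h3
  · have eZ : badZeta (1 / 2) = fun T => Pool.Agent.Zk5.HR.vol Pool.Agent.Zk4.BadZ T := funext badZ_eq
    have eX : badXi (1 / 2) = fun T => Pool.Agent.Zk5.HR.vol Pool.Agent.Zk69.Hx.BadX T := funext badX_eq
    have eG : badLag = fun T => Pool.Agent.Zk5.HR.vol Pool.Agent.Zk4.Bad T := funext badL_eq
    have eD : distSum (1 / 2) = fun T => Pool.Agent.Zk4.DD 1 T := funext dist_half
    rw [eZ, eX, eG, eD, near_iff]
    have h := Pool.Agent.Zk5.HR.tfae_small2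
    tfae_have 1 ↔ 2 := h.out 0 1
    tfae_have 2 ↔ 3 := h.out 1 2
    tfae_have 3 ↔ 4 := h.out 2 3
    tfae_have 4 ↔ 5 := h.out 3 4
    tfae_finish

end Pool.Agent.Results.MP_5a4862_nt.HorizontalMonotonicity
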