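import Pool.Agent.Zk17.J.ConvJ
import Pool.Agent.Zk17.JD.LMFa
import Pool.Agent.Zk17.JD.Conv
import Pool.Agent.Zk5.JD.CntFin
import Pool.Agent.Zk17.JQ.G

set_option autoImplicit false

/-!
# MP_5a4862_nt: the sharp range of hyperbolicity of the Jensen polynomials of the Riemann xi function

Let `8 ξ(1/2 + z) = ∑ γ(k) z^(2k) / k!` and `J^{d,n}(X) = ∑_{j ≤ d} (d choose j) γ(n + j) X^j`.  By Pólya the Riemann hypothesis holds if
and only if all `J^{d,n}` are hyperbolic (have only real zeros); Griffin, Ono, Rolen and Zagier proved that for every `d` the polynomial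
`J^{d,n}` is hyperbolic for all `n ≥ N(d)`.  We prove, unconditionally, that `J^{d,n}` is hyperbolic for all large `d` and all
`n ≥ c log d`, for every `c > 1/8`, and that the constant `1/8` can be lowered if and only if zeta has a zero-free half-plane
`Re s > θ`, `θ < 1`.  Below this range almost all zeros are real: for every `μ > 1/2` and every `κ < 8 μ`, all but `O(d^μ exp (-κ n))` of
the `d` zeros of `J^{d,n}` are real, uniformly in all `d ≥ 1` and `n ≥ 0`; in particular all but `O(d^(1/2 + ε) exp (-4 n))`.  This is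
also sharp: for every `μ > 1/2`, the bound holds for some `κ > 8 μ` if and only if zeta has a zero-free half-plane.

Idea.  Let `F(x) = ∑ γ(k) x^k / k!`, `F(z²) = 8 ξ(1/2 + z)`.  Near `x = -t²` the function `F` looks like `XX(i t + v)`, `x = -t² + 2 i t v`.
* *Analytic number theory* (`Zk17.JD.slmf`): for `n` of the order of `log T` and all `t ∈ [T, 2T]` outside of a set of measure
  `O(T exp (-κ n))`, `κ < 4`, the zeros of `F^(n)` near height `t` are real: otherwise one of many Dirichlet polynomials (powers of sums over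
  integers free of small primes, damped by the `n`-fold differentiation) is large.
* *Counting* (`Zk5.JD.ssum`): the sum `W` of `1 / √|x|` over the non-real zeros `|x| ≤ T²` of `F^(n)` is `O(log² T exp (-κ n))`, `κ < 4`.
* *Polynomials* (`Zk17.JQ`): `J^{d,n}` is obtained from `x^d` by the differential operators `1 - D/x` for the zeros `x` of `F^(n)`.  First apply
  the pairs of non-real zeros `a, ā` with `|a| > 2 d`: all zeros stay real, and at most `2 √(d/ρ) W` of them are outside `[-ρ, 0]`.  Then apply the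
  pairs with `|a| ≤ 2 d`: each of them destroys at most four real zeros in every interval `[-ρ, 0]`, `ρ ≤ ρ₀ = (log d)^(-A)`, because a gap between
  zeros in which more is lost contains an interval of length `≥ c/√d` with a logarithmic derivative `O(d)`, while `d (1 - o(1))` zeros are
  to the right of it at distance `≤ 2 ρ`, and the remaining ones are too few to compensate them (Markov's inequality).  Real zeros do not increase the
  number of non-real ones.  The result is `O(√d log^A d · W)`.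
* *Converse*: `J^{D,0}(x/D)` is an average of `F(x e^{iη})` with a gaussian weight of width `D^(-1/2)`; for `D ≥ t^(2 + 2b)` it is close to `F` near
  `x = -t²`.  If all zeros of its `n`-th derivative are real, `n ≈ r log t / 2` with `r < 1/2`, the logarithmic derivative of this `n`-th derivative
  is `(log t) (1 + o(1)) / 2` to the right of the axis, and integrating `n` times (Taylor's formula with van der Corput's bound for zeta near
  `Re s = 1`) one finds that `ξ` cannot vanish near `1/2 + 1/2 - ε + i t`.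
-/

namespace Pool.Agent.Results.MP_5a4862_nt.JensenDensity

open Complex Polynomial

noncomputable section

/-- The Riemann xi function `s (s - 1) π^(-s/2) Γ(s/2) ζ(s) / 2`, as an entire function. -/
def xi (s : ℂ) : ℂ := s * (s - 1) / 2 * completedRiemannZeta₀ s + 1 / 2

/-- The coefficients `γ(k) = (k! / (2k)!) (8 ξ(1/2 + z))^(2k)(0)`, so that `8 ξ(1/2 + z) = ∑ γ(k) z^(2k) / k!`. -/
def gamma (k : ℕ) : ℝ :=
  (k.factorial : ℝ) / ((2 * k).factorial : ℝ) * (iteratedDeriv (2 * k) (fun z : ℂ => 8 * xi (1 / 2 + z)) 0).re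

/-- The Jensen polynomial `J^{d,n}` of degree `d` and shift `n`. -/
def J (d n : ℕ) : ℝ[X] := ∑ j ∈ Finset.range (d + 1), C ((d.choose j : ℝ) * gamma (n + j)) * X ^ j

/-- All complex roots are real. -/
def Hyperbolic (P : ℝ[X]) : Prop := ∀ z : ℂ, aeval z P = 0 → z.im = 0

/-- For all large degrees `d` and all shifts `n ≥ c log d` the Jensen polynomial `J^{d,n}` is hyperbolic. -/
def HyperbolicFrom (c : ℝ) : Prop := ∃ d₀ : ℕ, ∀ d n : ℕ, d₀ ≤ d → c * Real.log d ≤ n → Hyperbolic (J d n)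

/-- The number of the non-real complex zeros of a real polynomial, with multiplicity. -/
def nonreal (P : ℝ[X]) : ℕ := ((P.map (algebraMap ℝ ℂ)).roots.filter fun z => z.im ≠ 0).card

/-- At most `C d^μ exp (-κ n)` of the `d` zeros of `J^{d,n}` are non-real, for all `d ≥ 1` and `n ≥ 0`. -/
def Bound (μ κ : ℝ) : Prop :=
  ∃ C : ℝ, ∀ d n : ℕ, 1 ≤ d → (nonreal (J d n) : ℝ) ≤ C * (d : ℝ) ^ μ * Real.exp (-(κ * n))

/-- The half-plane `Re s > θ` is free of zeros of zeta. -/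
def ZeroFree (θ : ℝ) : Prop := ∀ s : ℂ, θ < s.re → riemannZeta s ≠ 0

lemma XX_eq : (fun z : ℂ => 8 * xi (1 / 2 + z)) = Pool.Agent.H24R2.JP.XX := by
  funext z
  unfold xi Pool.Agent.H24R2.JP.XX
  ring

lemma gamma_eq : gamma = Pool.Agent.H24R2.JP.gam := by
  funext k
  unfold gamma Pool.Agent.H24R2.JP.gam
  rw [XX_eq]

lemma J_eq : J = Pool.Agent.H24R2.JP.jensen := by
  funext d n
  unfold J Pool.Agent.H24R2.JP.jensen
  rw [gamma_eq]

/-- the meaning of the coefficients: `8 ξ(1/2 + z) = ∑ γ(k) z^(2k) / k!`, and `γ(k) > 0` -/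
theorem sanity : (∀ z : ℂ, 8 * xi (1 / 2 + z) =
    ∑' k : ℕ, ((gamma k : ℝ) : ℂ) / (k.factorial : ℂ) * (z ^ 2) ^ k) ∧ ∀ n : ℕ, 0 < gamma n := by
  rw [gamma_eq]
  refine ⟨fun z => ?_, Pool.Agent.H24R2.JP.gamT.1⟩
  rw [congrFun XX_eq z, ← Pool.Agent.H24R2.JP.b1.2.1]
  rfl

lemma from_of_up {c : ℝ} (hc : 0 < c) (h : ∃ N : ℕ, Pool.Agent.Zk17.J.UpJ (1 / c) N) : HyperbolicFrom c := by
  obtain ⟨N, hN⟩ := h
  refine ⟨max 1 ⌈Real.exp (N / c)⌉₊, fun d n hd hn => ?_⟩
  have hd1 : 1 ≤ d := (le_max_left _ _).trans hd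
  have hd2 : Real.exp (N / c) ≤ d := Nat.ceil_le.1 ((le_max_right _ _).trans hd)
  have hd0 : (0 : ℝ) < d := by exact_mod_cast hd1
  have h1 : (N : ℝ) / c ≤ Real.log d := (Real.le_log_iff_exp_le hd0).2 hd2
  rw [div_le_iff₀ hc] at h1
  have h2 : N ≤ n := by
    have : (N : ℝ) ≤ n := by linarith
    exact_mod_cast this
  rw [J_eq]
  refine hN n d h2 ?_
  rw [← Real.log_le_iff_le_exp hd0, one_div, ← div_eq_inv_mul, le_div_iff₀ hc]
  linarith

lemma up_of_from {c : ℝ} (hc : 0 < c) (h : HyperbolicFrom c) :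
    ∃ N : ℕ, Pool.Agent.Zk17.J.UpJ (1 / c) N := by
  obtain ⟨d₀, hd₀⟩ := h
  obtain ⟨N1, hN1⟩ := Pool.Agent.Zk17.J.fwdJ (1 / 2) 1 (by norm_num) le_rfl Pool.Agent.H986R2.K4.a1
    (by norm_num)
  refine ⟨max N1 ⌈Real.log (d₀ + 1)⌉₊, fun n d hn hd => ?_⟩
  have hn1 : N1 ≤ n := (le_max_left _ _).trans hn
  have hn2 : Real.log (d₀ + 1) ≤ n := Nat.ceil_le.1 ((le_max_right _ _).trans hn)
  rcases lt_or_ge d (d₀ + 1) with hdd | hdd
  · refine hN1 n d hn1 ?_
    rw [one_mul]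
    have h1 : (0 : ℝ) < (d₀ : ℝ) + 1 := by positivity
    have h2 := (Real.log_le_iff_le_exp h1).1 hn2
    have h3 : (d : ℝ) ≤ d₀ := by exact_mod_cast Nat.lt_succ_iff.1 hdd
    linarith
  · have hd0 : (0 : ℝ) < d := by
      have : 0 < d := by omega
      exact_mod_cast this
    rw [← J_eq]
    refine hd₀ d n (by omega) ?_
    rw [← Real.log_le_iff_le_exp hd0, one_div, ← div_eq_inv_mul, le_div_iff₀ hc] at hd
    linarith

lemma part2 (θ c : ℝ) (h1 : 1 / 2 ≤ θ) (h2 : θ < 1) (h3 : ZeroFree θ) (h4 : (θ - 1 / 2) / 4 < c) :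
    HyperbolicFrom c := by
  have hc : 0 < c := by linarith
  apply from_of_up hc
  have hZ : Pool.Agent.H986R2.K4.ZB (θ - 1 / 2) :=
    Pool.Agent.H986R2.K4.a2 Pool.Agent.H986R2.K4.sab Pool.Agent.H986R2.K4.a1 (θ - 1 / 2) (by linarith)
      (by linarith) (fun s hs => h3 s (by linarith))
  refine Pool.Agent.Zk17.J.fwdJ (θ - 1 / 2) (1 / c) (by linarith) (by linarith) hZ ?_
  rw [div_mul_eq_mul_div, one_mul, div_lt_iff₀ hc]
  linarith

lemma free_of_y (h : ∃ y : ℝ, y < 1 / 2 ∧ ∀ s : ℂ, 1 / 2 + y < s.re → riemannZeta s ≠ 0) :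
    ∃ θ : ℝ, θ < 1 ∧ ZeroFree θ := by
  obtain ⟨y, hy, h⟩ := h
  exact ⟨1 / 2 + y, by linarith, h⟩

lemma real_of_nonreal {d n : ℕ} (h : nonreal (J d n) = 0) : Hyperbolic (J d n) := by
  intro z hz
  by_contra hcon
  unfold nonreal at h
  rw [Multiset.card_eq_zero, Multiset.filter_eq_nil] at h
  refine h z ?_ hcon
  rw [Polynomial.mem_roots (by
    rw [Polynomial.map_ne_zero_iff (algebraMap ℝ ℂ).injective, J_eq]
    exact Pool.Agent.Zk17.JD.jensen_ne_zero d n)]
  rwa [Polynomial.IsRoot.def, Polynomial.eval_map_algebraMap]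

lemma nonreal_of_real {d n : ℕ} (h : Hyperbolic (J d n)) : nonreal (J d n) = 0 := by
  unfold nonreal
  rw [Multiset.card_eq_zero, Multiset.filter_eq_nil]
  intro z hz hcon
  apply hcon
  apply h z
  have h1 := Polynomial.isRoot_of_mem_roots hz
  rwa [Polynomial.IsRoot.def, Polynomial.eval_map_algebraMap] at h1

/-- the square root bound -/
lemma sqrt_bound (κ : ℝ) (hκ : κ < 4) (ε : ℝ) (hε : 0 < ε) : ∃ C : ℝ, 0 < C ∧ ∀ d n : ℕ, 1 ≤ d →
    (nonreal (J d n) : ℝ) ≤ C * (d : ℝ) ^ (1 / 2 + ε) * Real.exp (-(κ * n)) := by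
  have h0 : Pool.Agent.Zk6.JD.S_SUM := by
    intro k c hk0 hk4 hc
    exact Pool.Agent.Zk5.JD.ssum Pool.Agent.Zk17.JD.slmf k c hk4 hc
  rw [J_eq]
  exact Pool.Agent.Zk17.JQ.jq h0 κ hκ ε hε

lemma bound_mono {μ κ κ' : ℝ} (h : κ ≤ κ') (hb : Bound μ κ') : Bound μ κ := by
  obtain ⟨C, hC⟩ := hb
  refine ⟨max C 1, fun d n hd => (hC d n hd).trans ?_⟩
  have h1 : Real.exp (-(κ' * n)) ≤ Real.exp (-(κ * n)) := by
    apply Real.exp_le_exp.2
    have : (0 : ℝ) ≤ n := Nat.cast_nonneg n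
    nlinarith
  have h2 : C ≤ max C 1 := le_max_left _ _
  have h3 : (0 : ℝ) ≤ max C 1 := le_trans zero_le_one (le_max_right _ _)
  gcongr

/-- from hyperbolicity for `n ≥ c log d` to a bound -/
lemma bound_of_up {c : ℝ} (hc : 0 < c) (h : ∃ N : ℕ, Pool.Agent.Zk17.J.UpJ (1 / c) N) {μ κ : ℝ}
    (hμ : 1 / 2 < μ) (hκ : (κ - 4) * c < μ - 1 / 2) : Bound μ κ := by
  obtain ⟨κ2, hκ2, hκκ, hκ3⟩ : ∃ κ2 : ℝ, 4 ≤ κ2 ∧ κ ≤ κ2 ∧ (κ2 - 4) * c < μ - 1 / 2 := by
    rcases le_total κ 4 with h4 | h4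
    · exact ⟨4, le_rfl, h4, by rw [sub_self, zero_mul]; linarith⟩
    · exact ⟨κ, h4, le_rfl, hκ⟩
  apply bound_mono hκκ
  obtain ⟨N, hN⟩ := h
  obtain ⟨Δ, hΔ⟩ : ∃ Δ : ℝ, Δ = μ - 1 / 2 - (κ2 - 4) * c := ⟨_, rfl⟩
  have hΔ0 : 0 < Δ := by rw [hΔ]; linarith
  have hΔ1 : Δ ≤ μ - 1 / 2 := by
    rw [hΔ]
    have : 0 ≤ (κ2 - 4) * c := mul_nonneg (by linarith) hc.le
    linarith
  obtain ⟨κ1, hκ1⟩ : ∃ κ1 : ℝ, κ1 = 4 - Δ / (2 * c) := ⟨_, rfl⟩
  have hs : 0 < Δ / (2 * c) := by positivity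
  have hsc : Δ / (2 * c) * c = Δ / 2 := by field_simp
  obtain ⟨C, hC, hb⟩ := sqrt_bound κ1 (by rw [hκ1]; linarith) (Δ / 2) (by positivity)
  have hk : 0 < κ2 - κ1 := by rw [hκ1]; linarith
  have hkc : (κ2 - κ1) * c = μ - 1 / 2 - Δ / 2 := by
    have : (κ2 - κ1) * c = (κ2 - 4) * c + Δ / (2 * c) * c := by rw [hκ1]; ring
    rw [this, hsc]
    linarith
  refine ⟨C * Real.exp ((κ2 - κ1) * N), fun d n hd => ?_⟩
  have hdd : (1 : ℝ) ≤ d := by exact_mod_cast hd
  have hd0 : (0 : ℝ) < d := by linarith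
  have hE1 : 1 ≤ Real.exp ((κ2 - κ1) * N) := by
    apply Real.one_le_exp
    positivity
  have hsplit : Real.exp (-(κ1 * n)) = Real.exp ((κ2 - κ1) * n) * Real.exp (-(κ2 * n)) := by
    rw [← Real.exp_add]
    congr 1
    ring
  have h1 := hb d n hd
  rw [hsplit] at h1
  rcases lt_or_ge n N with hn | hn
  · refine h1.trans ?_
    have e1 : (d : ℝ) ^ (1 / 2 + Δ / 2) ≤ (d : ℝ) ^ μ :=
      Real.rpow_le_rpow_of_exponent_le hdd (by linarith)
    have e2 : Real.exp ((κ2 - κ1) * n) ≤ Real.exp ((κ2 - κ1) * N) := by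
      apply Real.exp_le_exp.2
      have : (n : ℝ) ≤ N := by exact_mod_cast hn.le
      nlinarith
    calc C * (d : ℝ) ^ (1 / 2 + Δ / 2) * (Real.exp ((κ2 - κ1) * n) * Real.exp (-(κ2 * n)))
        ≤ C * (d : ℝ) ^ μ * (Real.exp ((κ2 - κ1) * N) * Real.exp (-(κ2 * n))) := by gcongr
      _ = _ := by ring
  · by_cases hcase : (d : ℝ) ≤ Real.exp (1 / c * n)
    · have h2 : nonreal (J d n) = 0 := by
        apply nonreal_of_real
        rw [J_eq]
        exact hN n d hn hcase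
      rw [h2]
      push_cast
      positivity
    · push Not at hcase
      have h3 : (n : ℝ) ≤ c * Real.log d := by
        have h4 := (Real.lt_log_iff_exp_lt hd0).2 hcase
        rw [one_div, inv_mul_eq_div, div_lt_iff₀ hc] at h4
        linarith
      refine h1.trans ?_
      have e2 : Real.exp ((κ2 - κ1) * n) ≤ (d : ℝ) ^ (μ - 1 / 2 - Δ / 2) := by
        rw [Real.rpow_def_of_pos hd0]
        apply Real.exp_le_exp.2
        have h5 : (κ2 - κ1) * n ≤ (κ2 - κ1) * (c * Real.log d) := mul_le_mul_of_nonneg_left h3 hk.le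
        have h6 : (κ2 - κ1) * (c * Real.log d) = Real.log d * (μ - 1 / 2 - Δ / 2) := by
          rw [← mul_assoc, hkc]
          ring
        linarith
      calc C * (d : ℝ) ^ (1 / 2 + Δ / 2) * (Real.exp ((κ2 - κ1) * n) * Real.exp (-(κ2 * n)))
          ≤ C * (d : ℝ) ^ (1 / 2 + Δ / 2) * ((d : ℝ) ^ (μ - 1 / 2 - Δ / 2) * Real.exp (-(κ2 * n))) := by
            gcongr
        _ = C * ((d : ℝ) ^ (1 / 2 + Δ / 2) * (d : ℝ) ^ (μ - 1 / 2 - Δ / 2)) * Real.exp (-(κ2 * n)) := by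
            ring
        _ = C * (d : ℝ) ^ μ * Real.exp (-(κ2 * n)) := by
            rw [← Real.rpow_add hd0]
            congr 3
            ring
        _ ≤ C * Real.exp ((κ2 - κ1) * N) * (d : ℝ) ^ μ * Real.exp (-(κ2 * n)) := by
            have : C ≤ C * Real.exp ((κ2 - κ1) * N) := le_mul_of_one_le_right hC.le hE1
            gcongr

lemma from_of_bound {μ κ : ℝ} (hμ : 1 / 2 < μ) (hκ : 8 * μ < κ) (h : Bound μ κ) :
    ∃ c : ℝ, c < 1 / 8 ∧ HyperbolicFrom c := by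
  obtain ⟨C₁, h₁⟩ := h
  obtain ⟨C, hC, h⟩ : ∃ C : ℝ, 1 ≤ C ∧ ∀ d n : ℕ, 1 ≤ d →
      (nonreal (J d n) : ℝ) ≤ C * (d : ℝ) ^ μ * Real.exp (-(κ * n)) := by
    refine ⟨max C₁ 1, le_max_right _ _, fun d n hd => (h₁ d n hd).trans ?_⟩
    gcongr
    exact le_max_left _ _
  have hκ0 : 0 < κ := by linarith
  -- `μ/κ < c < 1/8`
  obtain ⟨c, hc1, hc2⟩ : ∃ c : ℝ, μ / κ < c ∧ c < 1 / 8 := by
    apply exists_between
    rw [div_lt_iff₀ hκ0]
    linarith
  have hκc : μ < κ * c := by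
    rw [div_lt_iff₀ hκ0] at hc1
    linarith
  refine ⟨c, hc2, max 1 (⌈Real.exp (Real.log C / (κ * c - μ))⌉₊ + 1), fun d n hd hn => ?_⟩
  have hd1 : 1 ≤ d := (le_max_left _ _).trans hd
  have hd0 : (0 : ℝ) < d := by exact_mod_cast hd1
  have hd2 : Real.exp (Real.log C / (κ * c - μ)) < d := by
    have h2 : ⌈Real.exp (Real.log C / (κ * c - μ))⌉₊ < d := by
      have := (le_max_right _ _).trans hd
      omega
    exact lt_of_le_of_lt (Nat.le_ceil _) (by exact_mod_cast h2)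
  have h3 : Real.log C < (κ * c - μ) * Real.log d := by
    have h4 := (Real.lt_log_iff_exp_lt hd0).2 hd2
    rw [div_lt_iff₀ (by linarith)] at h4
    linarith
  apply real_of_nonreal
  have h5 : C * (d : ℝ) ^ μ * Real.exp (-(κ * n)) < 1 := by
    have h6 : C * (d : ℝ) ^ μ = Real.exp (Real.log C + Real.log d * μ) := by
      rw [Real.exp_add, Real.exp_log (by linarith), Real.rpow_def_of_pos hd0]
    rw [h6, ← Real.exp_add, Real.exp_lt_one_iff]
    have h7 : κ * (c * Real.log d) ≤ κ * n := mul_le_mul_of_nonneg_left hn hκ0.le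
    nlinarith
  have h8 : (nonreal (J d n) : ℝ) < 1 := lt_of_le_of_lt (h d n hd1) h5
  have h9 : nonreal (J d n) < 1 := by exact_mod_cast h8
  omega

lemma free_of_from (h : ∃ c : ℝ, c < 1 / 8 ∧ HyperbolicFrom c) : ∃ θ : ℝ, θ < 1 ∧ ZeroFree θ := by
  obtain ⟨c, hc, d₀, h⟩ := h
  have h' : HyperbolicFrom (max c (1 / 16)) := by
    refine ⟨d₀ + 1, fun d n hd hn => h d n (by omega) (le_trans ?_ hn)⟩
    apply mul_le_mul_of_nonneg_right (le_max_left _ _)
    apply Real.log_nonneg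
    have : 1 ≤ d := by omega
    exact_mod_cast this
  have hc0 : 0 < max c (1 / 16) := lt_of_lt_of_le (by norm_num) (le_max_right _ _)
  have hc8 : max c (1 / 16) < 1 / 8 := max_lt hc (by norm_num)
  apply free_of_y
  refine Pool.Agent.Zk17.J.convJ (1 / max c (1 / 16)) ?_ (up_of_from hc0 h')
  rw [lt_div_iff₀ hc0]
  linarith

lemma from_of_free (h : ∃ θ : ℝ, θ < 1 ∧ ZeroFree θ) : ∃ c : ℝ, 0 < c ∧ c < 1 / 8 ∧ HyperbolicFrom c := by
  obtain ⟨θ, h1, h2⟩ := h
  have h3 : max θ (1 / 2) < 1 := max_lt h1 (by norm_num)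
  have h5 : 1 / 2 ≤ max θ (1 / 2) := le_max_right _ _
  have h4 : ZeroFree (max θ (1 / 2)) := fun s hs => h2 s (lt_of_le_of_lt (le_max_left _ _) hs)
  exact ⟨((max θ (1 / 2) - 1 / 2) / 4 + 1 / 8) / 2, by linarith, by linarith,
    part2 (max θ (1 / 2)) _ h5 h3 h4 (by linarith)⟩

lemma fwd {c : ℝ} (hc8 : 1 / 8 < c) : ∃ N : ℕ, Pool.Agent.Zk17.J.UpJ (1 / c) N := by
  have hc : 0 < c := by linarith
  refine Pool.Agent.Zk17.J.fwdJ (1 / 2) (1 / c) (by norm_num) le_rfl Pool.Agent.H986R2.K4.a1 ?_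
  rw [div_mul_eq_mul_div, one_mul, div_lt_iff₀ hc]
  linarith

/-- **Main theorem.** The sharp range of hyperbolicity of the Jensen polynomials of the Riemann xi function, and the sharp bound for the
number of their non-real zeros below this range. -/
theorem result :
    -- `J^{d,n}` is hyperbolic for all large `d` and all `n ≥ c log d`, for every `c > 1/8`
    (∀ c : ℝ, 1 / 8 < c → HyperbolicFrom c) ∧
    -- and the constant `1/8` can be lowered if and only if zeta has a zero-free half-plane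
    ((∃ c : ℝ, c < 1 / 8 ∧ HyperbolicFrom c) ↔ ∃ θ : ℝ, θ < 1 ∧ ZeroFree θ) ∧
    -- for all `μ > 1/2` and `κ < 8 μ`: all but `O(d^μ exp (-κ n))` of the `d` zeros of `J^{d,n}` are real, uniformly in `d` and `n`
    (∀ μ κ : ℝ, 1 / 2 < μ → κ < 8 * μ → Bound μ κ) ∧
    -- this is sharp: for every `μ > 1/2`, some `κ > 8 μ` is admissible if and only if there is a zero-free half-plane
    (∀ μ : ℝ, 1 / 2 < μ → ((∃ κ : ℝ, 8 * μ < κ ∧ Bound μ κ) ↔ ∃ θ : ℝ, θ < 1 ∧ ZeroFree θ)) := by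
  refine ⟨fun c hc => from_of_up (by linarith) (fwd hc), ⟨free_of_from, fun h => ?_⟩, ?_, ?_⟩
  · obtain ⟨c, -, hc8, hfrom⟩ := from_of_free h
    exact ⟨c, hc8, hfrom⟩
  · intro μ κ hμ hκ
    -- a constant `c > 1/8`
    obtain ⟨c, hc1, hc2⟩ : ∃ c : ℝ, 1 / 8 < c ∧ (κ - 4) * c < μ - 1 / 2 := by
      rcases le_total κ 4 with h4 | h4
      · refine ⟨1, by norm_num, ?_⟩
        linarith
      · obtain ⟨s, hs⟩ : ∃ s : ℝ, s = 8 * μ - κ := ⟨_, rfl⟩
        have hs0 : 0 < s := by linarith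
        refine ⟨1 / 8 + s / (16 * (κ - 3)), ?_, ?_⟩
        · have : 0 < s / (16 * (κ - 3)) := div_pos hs0 (by linarith)
          linarith
        · have h5 : (κ - 4) * (s / (16 * (κ - 3))) ≤ s / 16 := by
            rw [mul_div_assoc', div_le_div_iff₀ (by linarith) (by norm_num)]
            nlinarith
          have h6 : (κ - 4) * (1 / 8 + s / (16 * (κ - 3))) =
              (κ - 4) / 8 + (κ - 4) * (s / (16 * (κ - 3))) := by ring
          rw [h6]
          linarith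
    exact bound_of_up (by linarith) (fwd hc1) hμ hc2
  · intro μ hμ
    constructor
    · rintro ⟨κ, hκ, h⟩
      exact free_of_from (from_of_bound hμ hκ h)
    · intro h
      obtain ⟨c, hc0, hc8, hfrom⟩ := from_of_free h
      -- `8 μ < κ < 4 + (μ - 1/2) / c`
      obtain ⟨κ, hκ1, hκ2⟩ : ∃ κ : ℝ, 8 * μ < κ ∧ κ < 4 + (μ - 1 / 2) / c := by
        apply exists_between
        have : (μ - 1 / 2) * 8 < (μ - 1 / 2) / c := by
          rw [lt_div_iff₀ hc0]
          nlinarith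
        linarith
      refine ⟨κ, hκ1, bound_of_up hc0 (up_of_from hc0 hfrom) hμ ?_⟩
      have h1 : κ - 4 < (μ - 1 / 2) / c := by linarith
      rwa [lt_div_iff₀ hc0] at h1

end

end Pool.Agent.Results.MP_5a4862_nt.JensenDensity
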