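import Pool.Agent.Zk6.H12

set_option autoImplicit false

/-!
# MP_5a4862_nt: zeros of zeta off the critical line in short intervals

For every `ε > 0`, uniformly for `T ≥ 2`, `T^(27/82+ε) ≤ H ≤ T` and `1/2 ≤ σ ≤ 1`, the number of zeros `ρ` of the Riemann zeta
function with `Re ρ ≥ σ` and `T < Im ρ ≤ T + H`, counted with multiplicity, is at most
`C(ε) H^(4(1-σ)/(3-2σ) + ε(2σ-1)) log T`.

At `σ = 1/2` this is the order of the total number of zeros, so the bound is free of superfluous logarithms near the critical
line; its logarithm has slope `-(1 - ε) log H` there, up to a constant multiple of `ε`.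

Idea.  (1) The second moment of zeta, twisted by a Dirichlet polynomial of length `T^δ`, over a Gaussian window of length
`T^h`, every `h > 27/82`: a smooth approximate functional equation; the near-diagonal terms are transformed by Poisson
summation (in a Fejér form), and the dual sums are estimated by the fifth derivative test (four Weyl steps and the second
derivative test), i.e. by the exponent pair which gives 27/82 in the mean value theorem of Balasubramanian (1978).  (2) With weights `∏ |exp(-P_j)|` truncated over blocks of primes this gives a bounded first moment, on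
every interval of length `H`, of zeta times a Moebius mollifier of length `H^(1-ε)`.  (3) To the right of `1` the second
moment of `zeta M - 1` is at most `H^(-1+ε)`.  (4) A convexity theorem between the first and the second moment, and Jensen's
formula for circles whose centre moves along `Re s = 3`.
-/

namespace Pool.Agent.Results.MP_5a4862_nt.ShortIntervalDensity

noncomputable section

/-- The zeros `ρ` of the Riemann zeta function with `Re ρ ≥ σ` and `T < Im ρ ≤ T + H`. -/
def zerosIn (σ T H : ℝ) : Set ℂ := {ρ : ℂ | riemannZeta ρ = 0 ∧ σ ≤ ρ.re ∧ T < ρ.im ∧ ρ.im ≤ T + H}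

/-- Their number, counted with multiplicity: `N(σ, T + H) - N(σ, T)`. -/
def zeroCount (σ T H : ℝ) : ℕ := ∑ᶠ ρ ∈ zerosIn σ T H, analyticOrderNatAt riemannZeta ρ

/-- The density theorem in short intervals. -/
theorem result : ∀ ε : ℝ, 0 < ε → ∃ C : ℝ, 0 < C ∧
    ∀ T H σ : ℝ, 2 ≤ T → T ^ (27 / 82 + ε) ≤ H → H ≤ T → 1 / 2 ≤ σ → σ ≤ 1 →
      (zerosIn σ T H).Finite ∧
      (zeroCount σ T H : ℝ) ≤ C * H ^ (4 * (1 - σ) / (3 - 2 * σ) + ε * (2 * σ - 1)) * Real.log T := by
  intro ε hε
  obtain ⟨C, hC, h⟩ := Pool.Agent.Zk6.short_density ε hε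
  refine ⟨C, hC, fun T H σ hT hH hHT hσ1 hσ2 => ?_⟩
  have hfin : (zerosIn σ T H).Finite := by
    refine (Pool.Agent.Y24.ZZ_fin σ (T + H)).subset fun ρ hρ => ?_
    obtain ⟨h1, h2, h3, h4⟩ := hρ
    exact ⟨h1, h2, by linarith, h4⟩
  refine ⟨hfin, ?_⟩
  have h1 := h T H σ hT hH hHT hσ1 hσ2 hfin.toFinset (fun ρ hρ => by
    rw [Set.Finite.mem_toFinset] at hρ
    exact hρ)
  unfold zeroCount
  rw [finsum_mem_eq_finite_toFinset_sum _ hfin]
  push_cast
  exact h1

end

end Pool.Agent.Results.MP_5a4862_nt.ShortIntervalDensity
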